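import Pool.Agent.Helper11.PV.St

/-!
# Project PV (MP_e12aa9_pr), module UBD: union bound for cliques and independent sets
-/

set_option autoImplicit false

namespace Pool.Agent.Helper94.PV

open Finset Pool.Agent.Helper82.CN Pool.Agent.Helper11.PV

/-- the expectation of a product -/
theorem EE_prod_UBD {ι : Type} [Fintype ι] [DecidableEq ι] (p : ℝ) (φ : ι → Bool → ℝ) :
    EE p (fun ω : ι → Bool => ∏ i, φ i (ω i)) = ∏ i, ∑ b : Bool, bw p b * φ i b := by
  unfold EE
  have h := (Finset.prod_univ_sum (fun _ : ι => (univ : Finset Bool)) (fun i b => bw p b * φ i b))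
  simp only [Fintype.piFinset_univ] at h
  rw [h]
  exact Finset.sum_congr rfl fun ω _ => by rw [Finset.prod_mul_distrib]

open Classical in
/-- indicator that all the bits of the pairs of `S` are `b` -/
noncomputable def indb {n : ℕ} (b : Bool) (S : Finset (Fin n)) (ω : Sym2 (Fin n) → Bool) : ℝ :=
  if ∀ u ∈ S, ∀ v ∈ S, u ≠ v → ω s(u, v) = b then 1 else 0

theorem indb_nonneg {n : ℕ} (b : Bool) (S : Finset (Fin n)) (ω : Sym2 (Fin n) → Bool) :
    0 ≤ indb b S ω := by
  unfold indb; split_ifs <;> norm_num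

theorem indb_prob (p : ℝ) (n : ℕ) (b : Bool) (S : Finset (Fin n)) :
    EE p (indb b S) = bw p b ^ (S.card.choose 2) := by
  classical
  set T : Finset (Sym2 (Fin n)) := S.offDiag.image (fun q => s(q.1, q.2)) with hT
  have hcard : T.card = S.card.choose 2 := by
    rw [← Sym2.card_image_offDiag S]
    rfl
  have h1 : (indb b S) = fun ω : Sym2 (Fin n) → Bool =>
      ∏ i, (fun (i : Sym2 (Fin n)) (c : Bool) => if i ∈ T then (if c = b then (1 : ℝ) else 0) else 1) i (ω i) := by
    funext ω
    unfold indb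
    by_cases h : ∀ u ∈ S, ∀ v ∈ S, u ≠ v → ω s(u, v) = b
    · rw [if_pos h]
      symm
      apply Finset.prod_eq_one
      intro i _
      by_cases hi : i ∈ T
      · simp only [hi, if_true]
        rw [hT, Finset.mem_image] at hi
        obtain ⟨⟨u, v⟩, huv, rfl⟩ := hi
        rw [Finset.mem_offDiag] at huv
        rw [if_pos (h u huv.1 v huv.2.1 huv.2.2)]
      · simp only [hi, if_false]
    · rw [if_neg h]
      symm
      push Not at h
      obtain ⟨u, hu, v, hv, huv, hω⟩ := h
      apply Finset.prod_eq_zero (Finset.mem_univ s(u, v))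
      have hi : s(u, v) ∈ T := by
        rw [hT, Finset.mem_image]
        exact ⟨(u, v), Finset.mem_offDiag.2 ⟨hu, hv, huv⟩, rfl⟩
      simp only [hi, if_true]
      rw [if_neg hω]
  rw [h1, EE_prod_UBD p (fun (i : Sym2 (Fin n)) (c : Bool) => if i ∈ T then (if c = b then (1 : ℝ) else 0) else 1)]
  have h2 : ∀ i : Sym2 (Fin n), (∑ c : Bool, bw p c *
      (if i ∈ T then (if c = b then (1 : ℝ) else 0) else 1)) = if i ∈ T then bw p b else 1 := by
    intro i
    by_cases hi : i ∈ T
    · cases b <;> simp [hi, bw]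
    · simp [hi, bw]
  rw [Finset.prod_congr rfl (fun i _ => h2 i), Finset.prod_ite_mem, Finset.univ_inter,
    Finset.prod_const, hcard]

theorem tUBD : Pool.Agent.Helper11.PV.StUBD := by
  intro p n k b h0 h1
  classical
  have hb : 0 ≤ bw p b := bw_nonneg h0 h1 b
  have step : PP p (fun ω : Sym2 (Fin n) → Bool => ∃ S : Finset (Fin n), S.card = k ∧
      ∀ u ∈ S, ∀ v ∈ S, u ≠ v → ω s(u, v) = b) ≤
      EE p (fun ω => ∑ S ∈ (univ : Finset (Fin n)).powersetCard k, indb b S ω) := by
    unfold PP
    apply EE_mono h0 h1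
    intro ω
    by_cases h : ∃ S : Finset (Fin n), S.card = k ∧ ∀ u ∈ S, ∀ v ∈ S, u ≠ v → ω s(u, v) = b
    · rw [if_pos h]
      obtain ⟨S, hS, hSb⟩ := h
      have hmem : S ∈ (univ : Finset (Fin n)).powersetCard k := by
        rw [Finset.mem_powersetCard]
        exact ⟨Finset.subset_univ S, hS⟩
      have h3 : indb b S ω = 1 := by unfold indb; rw [if_pos hSb]
      calc (1 : ℝ) = indb b S ω := h3.symm
        _ ≤ _ := Finset.single_le_sum (fun S' _ => indb_nonneg b S' ω) hmem
    · rw [if_neg h]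
      exact Finset.sum_nonneg fun S' _ => indb_nonneg b S' ω
  refine step.trans ?_
  rw [EE_sum]
  have h4 : ∀ S ∈ (univ : Finset (Fin n)).powersetCard k, EE p (indb b S) = bw p b ^ (k.choose 2) := by
    intro S hS
    rw [indb_prob, (Finset.mem_powersetCard.1 hS).2]
  rw [Finset.sum_congr rfl h4, Finset.sum_const, Finset.card_powersetCard, Finset.card_univ,
    Fintype.card_fin, nsmul_eq_mul]
  apply mul_le_mul_of_nonneg_right _ (pow_nonneg hb _)
  exact_mod_cast Nat.choose_le_pow n k

end Pool.Agent.Helper94.PV
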