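import Pool.Agent.Helper61.PV.St

/-!
# Project PV, module Sta: at least half of the polynomials have no fixed divisor
-/

set_option autoImplicit false

namespace Pool.Agent.Helper94.PV

open Pool.Agent.Helper61.PV Finset

private theorem card_eq {α : Type} (s : Finset α) (P : α → Prop) [DecidablePred P] :
    Nat.card {c : α // c ∈ s ∧ P c} = #(s.filter P) :=
  Nat.subtype_card (s.filter P) (fun _ => Finset.mem_filter)

private theorem ev_zero {d : ℕ} (c : Fin (d + 1) → ℤ) : ev c 0 = c 0 := by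
  unfold ev
  rw [Fin.sum_univ_succ]
  simp

private theorem ev_one {d : ℕ} (c : Fin (d + 1) → ℤ) : ev c 1 = ∑ i, c i := by
  simp [ev]

private theorem bd_zero {d H : ℕ} (hd : 1 ≤ d) (c : Fin (d + 1) → ℤ) (hc : c ∈ Bxx d H) : |c 0| ≤ H := by
  unfold Bxx Bx at hc
  rw [Fintype.mem_piFinset] at hc
  have h := hc 0
  have h0 : ((0 : Fin (d + 1)) : ℕ) < d := by rw [Fin.val_zero]; omega
  simp only [h0, if_true, Finset.mem_Ico] at h
  rw [abs_le]
  push_cast at h
  omega

theorem hSta (hSa1 : StSa1) (hSa2 : StSa2) : StSta := by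
  classical
  obtain ⟨H₁, hH₁⟩ := hSa2
  refine ⟨max H₁ 1, fun H hH d hd => ?_⟩
  have hH1 : 1 ≤ H := le_trans (le_max_right _ _) hH
  have hnum := hH₁ H (le_trans (le_max_left _ _) hH)
  obtain ⟨ha, hb⟩ := hSa1 d H hd hH1
  rw [card_eq] at hb ⊢
  set s := Bxx d H with hs
  have hsplit : #(s.filter NFD) + #(s.filter (fun c => ¬ NFD c)) = #s :=
    Finset.card_filter_add_card_filter_not _
  have hsub : s.filter (fun c => ¬ NFD c) ⊆
      (((Icc 1 H).filter Nat.Prime).biUnion (fun p : ℕ => s.filter (fun c => (p : ℤ) ∣ c 0 ∧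
        (p : ℤ) ∣ (∑ i, c i) - c 0))) ∪ s.filter (fun c => c 0 = 0) := by
    intro c hc
    obtain ⟨hcs, hcn⟩ := Finset.mem_filter.1 hc
    unfold NFD at hcn
    push Not at hcn
    obtain ⟨n, hn1, hn⟩ := hcn
    have hp : n.minFac.Prime := Nat.minFac_prime (by omega)
    have hpn : ((n.minFac : ℕ) : ℤ) ∣ (n : ℤ) := Int.natCast_dvd_natCast.2 (Nat.minFac_dvd n)
    have h0 : ((n.minFac : ℕ) : ℤ) ∣ c 0 := by
      have := hn 0
      rw [ev_zero] at this
      exact hpn.trans this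
    have h1 : ((n.minFac : ℕ) : ℤ) ∣ ∑ i, c i := by
      have := hn 1
      rw [ev_one] at this
      exact hpn.trans this
    rw [Finset.mem_union]
    by_cases hpH : n.minFac ≤ H
    · left
      rw [Finset.mem_biUnion]
      refine ⟨n.minFac, Finset.mem_filter.2 ⟨Finset.mem_Icc.2 ⟨hp.one_lt.le, hpH⟩, hp⟩, ?_⟩
      exact Finset.mem_filter.2 ⟨hcs, h0, dvd_sub h1 h0⟩
    · right
      refine Finset.mem_filter.2 ⟨hcs, ?_⟩
      have hbd := bd_zero hd c hcs
      apply Int.eq_zero_of_abs_lt_dvd h0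
      push Not at hpH
      have : (H : ℤ) < (n.minFac : ℤ) := by exact_mod_cast hpH
      omega
  have hcard : (#(s.filter (fun c => ¬ NFD c)) : ℝ) ≤
      ∑ p ∈ (Icc 1 H).filter Nat.Prime, (1 / (p : ℝ) + 1 / (2 * H + 1)) * (1 / p + 1 / H) * #s +
        1 / (2 * H + 1) * #s := by
    have h1 : #(s.filter (fun c => ¬ NFD c)) ≤
        ∑ p ∈ (Icc 1 H).filter Nat.Prime, #(s.filter (fun c => (p : ℤ) ∣ c 0 ∧
          (p : ℤ) ∣ (∑ i, c i) - c 0)) + #(s.filter (fun c => c 0 = 0)) := by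
      refine (Finset.card_le_card hsub).trans ((Finset.card_union_le _ _).trans ?_)
      exact Nat.add_le_add_right Finset.card_biUnion_le _
    have h2 : (#(s.filter (fun c => ¬ NFD c)) : ℝ) ≤
        ∑ p ∈ (Icc 1 H).filter Nat.Prime, (#(s.filter (fun c => (p : ℤ) ∣ c 0 ∧
          (p : ℤ) ∣ (∑ i, c i) - c 0)) : ℝ) + #(s.filter (fun c => c 0 = 0)) := by
      exact_mod_cast h1
    refine h2.trans (add_le_add (Finset.sum_le_sum (fun p hp => ?_)) hb)
    have h3 := ha p (Finset.mem_Icc.1 (Finset.mem_filter.1 hp).1).1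
    rwa [card_eq] at h3
  rw [← Finset.sum_mul] at hcard
  have hsplit' : (#(s.filter NFD) : ℝ) + #(s.filter (fun c => ¬ NFD c)) = #s := by
    exact_mod_cast hsplit
  have h5 : (#(s.filter (fun c => ¬ NFD c)) : ℝ) ≤ 1 / 2 * #s := by
    refine hcard.trans ?_
    rw [← add_mul]
    exact mul_le_mul_of_nonneg_right hnum (Nat.cast_nonneg _)
  linarith

end Pool.Agent.Helper94.PV
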