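import Pool.Agent.Helper92.PV.St

/-!
# Project PV, module AUX: the auxiliary cone of a patch
-/

set_option autoImplicit false
set_option linter.unusedVariables false

open Finset

noncomputable section

namespace Pool.Agent.Helper94.PV

open Pool.Agent.Helper92.PV Pool.Agent.Helper92.PU Pool.Agent.Helper92.PW

/-- the exponent pairs -/
theorem exE (D n : ℕ) (h : 2 * n = (D + 1) * (D + 2)) :
    ∃ E : Fin n → ℕ × ℕ, Function.Injective E ∧ ∀ j, (E j).1 + (E j).2 ≤ D := by
  set F : Finset (ℕ × ℕ) := (range (D + 1)).biUnion (fun i => antidiagonal i) with hF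
  have hc : F.card = n := by
    rw [hF, Finset.card_biUnion]
    · have h2 : ∀ m : ℕ, 2 * ∑ u ∈ range m, (antidiagonal u).card = m * (m + 1) := by
        intro m
        induction m with
        | zero => simp
        | succ m ih =>
          rw [Finset.sum_range_succ, mul_add, ih, Finset.Nat.card_antidiagonal]
          ring
      have h3 := h2 (D + 1)
      have : (D + 1) * (D + 1 + 1) = (D + 1) * (D + 2) := by ring
      omega
    · intro x _ y _ hxy
      show Disjoint (antidiagonal x) (antidiagonal y)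
      rw [Finset.disjoint_left]
      intro e he he'
      rw [HasAntidiagonal.mem_antidiagonal] at he he'
      exact hxy (he.symm.trans he')
  have hFm : ∀ e ∈ F, e.1 + e.2 ≤ D := by
    intro e hm
    rw [hF, Finset.mem_biUnion] at hm
    obtain ⟨i, hi, he⟩ := hm
    rw [HasAntidiagonal.mem_antidiagonal] at he
    rw [Finset.mem_range] at hi
    omega
  exact ⟨fun j => ((F.equivFinOfCardEq hc).symm j : ℕ × ℕ),
    Subtype.val_injective.comp (Equiv.injective _), fun j => hFm _ (Subtype.mem _)⟩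

/-- the exponent vector -/
def ex (D : ℕ) (e : ℕ × ℕ) : Fin 3 →₀ ℕ := Finsupp.equivFunOnFinite.symm ![e.1, e.2, D - e.1 - e.2]

theorem ex_inj (D : ℕ) {e e' : ℕ × ℕ} (h : ex D e = ex D e') : e = e' := by
  have h1 : ex D e 0 = ex D e' 0 := by rw [h]
  have h2 : ex D e 1 = ex D e' 1 := by rw [h]
  simp [ex] at h1 h2
  exact Prod.ext h1 h2

theorem vl_mon (D : ℕ) (e : ℕ × ℕ) (c : ℤ) (p : Pt) :
    vl (MvPolynomial.monomial (ex D e) c) p = c * mn D e p := by
  unfold vl mn
  rw [MvPolynomial.eval_monomial, Finsupp.prod_fintype _ _ (fun i => by simp)]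
  simp [Fin.prod_univ_three, ex, vec]

theorem mn_le (D : ℕ) (e : ℕ × ℕ) (he : e.1 + e.2 ≤ D) (k : ℤ) (B : ℝ) (hB : 1 ≤ B) (p : Pt) (hp : SP k B p) :
    |((mn D e p : ℤ) : ℝ)| ≤ B ^ D := by
  unfold mn
  push_cast
  rw [abs_mul, abs_mul, abs_pow, abs_pow, abs_pow]
  have hz := hp.z_le
  have hy := hp.yz.trans hz
  have hx := hp.xy.trans hy
  have hD : D = e.1 + e.2 + (D - e.1 - e.2) := by omega
  have h0 : (0 : ℝ) ≤ B := by linarith
  calc |(p.1 : ℝ)| ^ e.1 * |(p.2.1 : ℝ)| ^ e.2 * |(p.2.2 : ℝ)| ^ (D - e.1 - e.2)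
      ≤ B ^ e.1 * B ^ e.2 * B ^ (D - e.1 - e.2) := by
        gcongr
    _ = B ^ D := by
        rw [← pow_add, ← pow_add, ← hD]

theorem hAUX (hPCH : StPCH) (hSUM : StSUM) (hSIE : StSIE) : StAUX := by
  intro k a ha ha1
  obtain ⟨D, n, hD, hn, hs⟩ := hSUM.2.2 a ha
  have hT : (0 : ℝ) < 3 / 2 * D := by
    have : (1 : ℝ) ≤ D := by exact_mod_cast hD
    linarith
  obtain ⟨C, M, hC, hdet⟩ := hPCH k D n a (3 / 2 * D) (by linarith) ha1 hT
  obtain ⟨E, hEi, hE⟩ := exE D n hn
  have hn1 : 1 ≤ n := by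
    rcases Nat.eq_zero_or_pos n with h | h
    · subst h
      have : 0 < (D + 1) * (D + 2) := by positivity
      omega
    · exact h
  refine ⟨D, (n : ℝ) * (D + 1), max (max (C + 1) (64 * |(k : ℝ)| + 1)) (max 2 n), ?_, ?_, ?_⟩
  · have : (1 : ℝ) ≤ n := by exact_mod_cast hn1
    positivity
  · exact le_trans (by norm_num) (le_trans (le_max_left (2 : ℝ) n) (le_max_right _ _))
  intro B S hB hS hx
  have hB1 : C + 1 ≤ B := le_trans (le_trans (le_max_left _ _) (le_max_left _ _)) hB
  have hB2 : 64 * |(k : ℝ)| + 1 ≤ B := le_trans (le_trans (le_max_right _ _) (le_max_left _ _)) hB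
  have hB3 : (2 : ℝ) ≤ B := le_trans (le_trans (le_max_left _ _) (le_max_right _ _)) hB
  have hB4 : (n : ℝ) ≤ B := le_trans (le_trans (le_max_right _ _) (le_max_right _ _)) hB
  have hB5 : (1 : ℝ) ≤ B := by linarith
  have hB6 : 64 * |(k : ℝ)| ≤ B ^ 3 := by
    have : B ≤ B ^ 3 := by
      nlinarith [mul_nonneg (by linarith : (0:ℝ) ≤ B) (by nlinarith : (0:ℝ) ≤ B ^ 2 - 1)]
    linarith
  have hdet0 : ∀ p : Fin n → Pt, (∀ i, p i ∈ S) →
      Matrix.det (Matrix.of fun i j : Fin n => (fun j p => mn D (E j) p) j (p i)) = 0 := by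
    intro p hp
    have h1 := hdet B hB5 hB6 E hE p (fun i => hS _ (hp i)) (fun i i' => hx _ (hp i) _ (hp i'))
    have h2 := hs M
    have h3 : B ^ ((n : ℝ) * D - n * (3 / 2 * D) +
        ∑ i ∈ range M, ∑ j ∈ range M, max 0 (3 / 2 * (D : ℝ) - a * i - 3 * j)) ≤ B ^ (-1 : ℝ) :=
      Real.rpow_le_rpow_of_exponent_le hB5 h2
    have h4 : C * B ^ (-1 : ℝ) < 1 := by
      rw [Real.rpow_neg_one, ← div_eq_mul_inv, div_lt_one (by linarith)]
      linarith
    have h5 : |((Matrix.det (Matrix.of fun i j : Fin n => mn D (E j) (p i)) : ℤ) : ℝ)| < 1 :=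
      lt_of_le_of_lt (h1.trans (mul_le_mul_of_nonneg_left h3 hC.le)) h4
    have h6 : |Matrix.det (Matrix.of fun i j : Fin n => mn D (E j) (p i))| < 1 := by
      exact_mod_cast h5
    exact Int.abs_lt_one_iff.mp h6
  obtain ⟨g, hg0, hgb, hgz⟩ := hSIE n (B ^ D) S (fun j p => mn D (E j) p) hn1 (one_le_pow₀ hB5) hdet0
    (fun p hp j => mn_le D (E j) (hE j) k B hB5 p (hS p hp))
  have hinj : Function.Injective (fun j => ex D (E j)) := fun i j h => hEi (ex_inj D h)
  have hco : ∀ s, (∑ j, MvPolynomial.monomial (ex D (E j)) (g j)).coeff s = ∑ j, if ex D (E j) = s then g j else 0 := by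
    intro s
    rw [MvPolynomial.coeff_sum]
    simp only [MvPolynomial.coeff_monomial]
  have hcj : ∀ j, (∑ j, MvPolynomial.monomial (ex D (E j)) (g j)).coeff (ex D (E j)) = g j := by
    intro j
    rw [hco, Finset.sum_eq_single j]
    · simp
    · intro i _ hij
      rw [if_neg]
      intro h
      exact hij (hinj h)
    · intro h
      exact absurd (Finset.mem_univ j) h
  refine ⟨∑ j, MvPolynomial.monomial (ex D (E j)) (g j), ?_, ?_, ?_, ?_⟩
  · intro h
    apply hg0
    funext j
    have := hcj j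
    rw [h, MvPolynomial.coeff_zero] at this
    exact this.symm
  · apply MvPolynomial.IsHomogeneous.sum
    intro j _
    apply MvPolynomial.isHomogeneous_monomial
    have hj := hE j
    rw [Finsupp.degree_eq_sum]
    simp [Fin.sum_univ_three, ex]
    omega
  · have hbd : ((n : ℝ) * B ^ D) ^ n ≤ B ^ ((n : ℝ) * (D + 1)) := by
      have h1 : (B : ℝ) ^ ((n : ℝ) * (D + 1)) = (B ^ (D + 1)) ^ n := by
        rw [← pow_mul, ← Real.rpow_natCast]
        congr 1
        push_cast
        ring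
      rw [h1]
      apply pow_le_pow_left₀ (by positivity)
      rw [pow_succ, mul_comm]
      exact mul_le_mul_of_nonneg_left hB4 (by positivity)
    intro s
    by_cases hs' : ∃ j, ex D (E j) = s
    · obtain ⟨j, rfl⟩ := hs'
      rw [hcj j]
      exact (hgb j).trans hbd
    · rw [hco, Finset.sum_eq_zero]
      · simp
        positivity
      · intro j _
        rw [if_neg]
        intro h
        exact hs' ⟨j, h⟩
  · intro p hp
    have h1 := hgz p hp
    unfold vl
    rw [map_sum]
    rw [← h1]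
    apply Finset.sum_congr rfl
    intro j _
    exact vl_mon D (E j) (g j) p

end Pool.Agent.Helper94.PV
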